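import Pool.Agent.Q56.FD.Poly
import Pool.Agent.Y133.Half.TateHalfDefs

/-!
# Varieties over a finite field: Frobenius endomorphisms and the full Tate conjecture
-/

set_option autoImplicit false

open CategoryTheory AlgebraicGeometry

universe u v

namespace Pool.Agent.Q56.FE

open Pool.Agent.H914 Pool.Agent.H914.VarClass Pool.Agent.H914.VarClass.Obj
  Pool.Agent.H914.WeilCohomology Pool.Agent.W534

variable {k : Type u} [Field k] {𝒱 : VarClass k} {ops : CycleOps 𝒱}

/-- The bound `(2 b!)!` for the orders of the roots of unity. -/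
def torsBound (b : ℕ) : ℕ := (2 * b.factorial).factorial

/-- The explicit constant `(2 b!)! (4 (d + 1) b!) ^ (2 ^ b)`. -/
def exactBound (b d : ℕ) : ℕ := torsBound b * Pool.Agent.Q56.FD.powBound b d

/-- The Frobenius endomorphisms of the varieties over the field with `q` elements: they commute with
all morphisms, they multiply the classes of cycles of codimension `j` by `q ^ j` and they act on the
cohomology of top degree as multiplication by `q ^ dim`. -/
structure FrobeniusOver (W : WeilCohomology.{u, v} ops) (q : ℕ) where
  Fr : ∀ X : 𝒱.Obj, X ⟶ X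
  nat : ∀ {X Y : 𝒱.Obj} (f : X ⟶ Y), Fr X ≫ f = f ≫ Fr Y
  cyc : ∀ {X : 𝒱.Obj} {j : ℕ} {z : X.Cycles}, X.IsCyc j z →
    W.map (Fr X) (W.cl X z) = ((q : W.K) ^ j) • W.cl X z
  deg : ∀ {X : 𝒱.Obj} {c : W.H X}, c ∈ W.gr X (2 * X.dim) →
    W.map (Fr X) c = ((q : W.K) ^ X.dim) • c

variable {W : WeilCohomology.{u, v} ops} {q : ℕ} (F : FrobeniusOver W q)

/-- The class `c` is a Tate class of degree `2 j` over the field with `q` elements. -/
def IsTateClass (X : 𝒱.Obj) (j : ℕ) (c : W.H X) : Prop :=
  c ∈ W.gr X (2 * j) ∧ W.map (F.Fr X) c = ((q : W.K) ^ j) • c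

/-- The surjectivity in the Tate conjecture in codimension `j`: all Tate classes over the field
with `q` elements are linear combinations of classes of cycles. -/
def TateOnto (X : 𝒱.Obj) (j : ℕ) : Prop :=
  ∀ c, IsTateClass F X j c → c ∈ spanCycles W X j

/-- The Tate conjecture in codimension `j` in its full form: there are finitely many cycles
`z 1, …, z r` of codimension `j` whose classes form a basis of the space of the Tate classes over
the coefficient field, and such that the class of every cycle of codimension `j` is a combination of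
them with rational coefficients. In other words, the space `A^j(X)_ℚ` of the classes of cycles with
rational coefficients is finite-dimensional, and `A^j(X)_ℚ ⊗ K` maps isomorphically to the space
of Tate classes. -/
def FullTate (X : 𝒱.Obj) (j : ℕ) : Prop :=
  ∃ (r : ℕ) (z : Fin r → X.Cycles), (∀ i, X.IsCyc j (z i)) ∧
    LinearIndependent W.K (fun i => W.cl X (z i)) ∧
    (∀ w, X.IsCyc j w → ∃ c : Fin r → ℚ, W.cl X w = ∑ i, (c i : W.K) • W.cl X (z i)) ∧
    ∀ x, IsTateClass F X j x ↔ x ∈ Submodule.span W.K (Set.range fun i => W.cl X (z i))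

/-- The strong form in codimension `j`: the generalised eigenspace of the Frobenius endomorphism in
degree `2 j` for the eigenvalue `q ^ j` is spanned by classes of cycles. -/
def StrongTate (X : 𝒱.Obj) (j : ℕ) : Prop :=
  Module.End.maxGenEigenspace (M := W.H X) (W.map (F.Fr X)).toLinearMap ((q : W.K) ^ j) ⊓
    W.gr X (2 * j) ≤ spanCycles W X j

/-- The Frobenius endomorphism acts semisimply on the cohomology. -/
def IsSemisimpleOn (X : 𝒱.Obj) : Prop :=
  Module.End.IsSemisimple (M := W.H X) (W.map (F.Fr X)).toLinearMap

end Pool.Agent.Q56.FE
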