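import Pool.Agent.Q56.FD.Coord
import Pool.Agent.Q56.FE.Defs

/-!
# Roots of unity which are products of Frobenius eigenvalues, and exact relations
-/

set_option autoImplicit false

namespace Pool.Agent.Q56.FE

open Polynomial Pool.Agent.Q56.FD

lemma torsBound_pos (b : ℕ) : 0 < torsBound b := Nat.factorial_pos _

section Arith

/-- A primitive root of unity of order `m` of small degree. -/
lemma order_dvd {ζ : Qb} {m B : ℕ} (hm : 0 < m) (hζ : IsPrimitiveRoot ζ m)
    (hdeg : (minpoly ℚ ζ).natDegree ≤ B) : m ∣ (2 * B).factorial := by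
  have h1 : m.totient ≤ B := by
    rw [← Polynomial.natDegree_cyclotomic m ℚ, Polynomial.cyclotomic_eq_minpoly_rat hζ hm]
    exact hdeg
  rw [Nat.dvd_iff_prime_pow_dvd_dvd]
  intro p k hp hk
  rcases Nat.eq_zero_or_pos k with rfl | hk0
  · rw [pow_zero]
    exact one_dvd _
  have h2 : (p ^ k).totient ≤ B :=
    (Nat.le_of_dvd (Nat.totient_pos.2 hm) (Nat.totient_dvd_of_dvd hk)).trans h1
  have h3 : p ^ k ≤ 2 * (p ^ k).totient := by
    rw [Nat.totient_prime_pow hp hk0]
    obtain ⟨k, rfl⟩ : ∃ k', k = k' + 1 := ⟨k - 1, by omega⟩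
    rw [Nat.add_sub_cancel, pow_succ]
    have h4 : p ≤ 2 * (p - 1) := by
      have := hp.two_le
      omega
    calc p ^ k * p ≤ p ^ k * (2 * (p - 1)) := Nat.mul_le_mul_left _ h4
      _ = 2 * (p ^ k * (p - 1)) := by ring
  exact Nat.dvd_factorial (pow_pos hp.pos k) (h3.trans (by omega))

end Arith

variable {p : ℕ} [Fact p.Prime] {e : ℕ} {Q : ℕ → ℤ[X]} {M b d : ℕ}

/-- the set of the eigenvalues -/
def rootsOf (Q : ℕ → ℤ[X]) (M : ℕ) : Set Qb := {a | ∃ i ≤ M, aeval a (Q i) = 0}

lemma rootsOf_map (σ : Qb →+* Qb) {a : Qb} (ha : a ∈ rootsOf Q M) : σ a ∈ rootsOf Q M := by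
  obtain ⟨i, hi, h⟩ := ha
  exact ⟨i, hi, root_map σ h⟩

lemma finite_rootsOf (hQ : ∀ i ≤ M, IsFrobPoly p (p ^ e) i (Q i)) : (rootsOf Q M).Finite := by
  have := finite_letter hQ
  refine Set.Finite.subset (Set.finite_range fun x : Letter Q M => x.1.2) ?_
  rintro a ⟨i, hi, h⟩
  exact ⟨⟨(i, a), hi, h⟩, rfl⟩

lemma card_rootsOf_le (hQ : ∀ i ≤ M, IsFrobPoly p (p ^ e) i (Q i))
    (hb : ∑ i ∈ Finset.range (M + 1), (Q i).natDegree ≤ b) : Nat.card (rootsOf Q M) ≤ b := by
  have := finite_letter hQ
  refine le_trans ?_ (card_letter_le hQ hb)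
  refine Nat.card_le_card_of_surjective
    (fun x : Letter Q M => (⟨x.1.2, x.1.1, x.2.1, x.2.2⟩ : rootsOf Q M)) ?_
  rintro ⟨a, i, hi, h⟩
  exact ⟨⟨(i, a), hi, h⟩, rfl⟩

/-- automorphisms permute the eigenvalues -/
noncomputable def permOf (Q : ℕ → ℤ[X]) (M : ℕ) (σ : Qb ≃ₐ[ℚ] Qb) :
    Equiv.Perm (rootsOf Q M) where
  toFun a := ⟨σ a, rootsOf_map (σ : Qb →+* Qb) a.2⟩
  invFun a := ⟨σ.symm a, rootsOf_map (σ.symm : Qb →+* Qb) a.2⟩
  left_inv _ := Subtype.ext (σ.symm_apply_apply _)
  right_inv _ := Subtype.ext (σ.apply_symm_apply _)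

lemma pr_map_eq {σ τ : Qb ≃ₐ[ℚ] Qb} (h : permOf Q M σ = permOf Q M τ)
    (s : Multiset (Letter Q M)) : σ (pr s) = τ (pr s) := by
  induction s using Multiset.induction with
  | empty => simp [pr]
  | cons x s ih =>
    rw [pr_cons, map_mul, map_mul, ih]
    congr 1
    have h1 := congrArg (fun f => ((f ⟨x.1.2, x.1.1, x.2.1, x.2.2⟩ : rootsOf Q M) : Qb)) h
    exact h1

/-- The degree of a product of eigenvalues. -/
lemma natDegree_pr_le (hQ : ∀ i ≤ M, IsFrobPoly p (p ^ e) i (Q i))
    (hb : ∑ i ∈ Finset.range (M + 1), (Q i).natDegree ≤ b) (s : Multiset (Letter Q M)) (j : ℕ) :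
    (minpoly ℚ (pr s / ((p ^ e : ℕ) : Qb) ^ j)).natDegree ≤ b.factorial := by
  classical
  set z : Qb := pr s / ((p ^ e : ℕ) : Qb) ^ j with hz
  have hfin : Finite (rootsOf Q M) := finite_rootsOf hQ
  let _ : Fintype (rootsOf Q M) := Fintype.ofFinite _
  have hint : IsIntegral ℚ z := Algebra.IsIntegral.isIntegral z
  have h1 : Fintype.card ((minpoly ℚ z).rootSet Qb) = (minpoly ℚ z).natDegree :=
    Polynomial.card_rootSet_eq_natDegree (minpoly.irreducible hint).separable
      (IsAlgClosed.splits _)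
  rw [← h1]
  have h2 : ∀ y : (minpoly ℚ z).rootSet Qb, ∃ σ : Qb ≃ₐ[ℚ] Qb, (y : Qb) = σ z := by
    intro y
    have h3 : IsConjRoot ℚ z (y : Qb) := by
      rw [isConjRoot_iff_aeval_eq_zero hint]
      exact (Polynomial.mem_rootSet.1 y.2).2
    exact isConjRoot_iff_exists_algEquiv.1 h3 |>.elim fun σ hσ => ⟨σ.symm,
      (σ.symm_apply_apply _).symm.trans (congrArg σ.symm hσ)⟩
  choose σ hσ using h2
  have hinj : Function.Injective fun y => permOf Q M (σ y) := by
    intro y y' hyy
    apply Subtype.ext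
    rw [hσ y, hσ y', hz, map_div₀, map_div₀, map_pow, map_pow, map_natCast, map_natCast,
      pr_map_eq hyy s]
  refine (Fintype.card_le_of_injective _ hinj).trans ?_
  rw [Fintype.card_perm]
  refine Nat.factorial_le ?_
  rw [← Nat.card_eq_fintype_card]
  exact card_rootsOf_le hQ hb

/-- The torsion in the group generated by the eigenvalues. -/
theorem pow_torsBound (hQ : ∀ i ≤ M, IsFrobPoly p (p ^ e) i (Q i))
    (hb : ∑ i ∈ Finset.range (M + 1), (Q i).natDegree ≤ b) {s : Multiset (Letter Q M)} {j m : ℕ}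
    (hm : 0 < m) (h : (pr s / ((p ^ e : ℕ) : Qb) ^ j) ^ m = 1) :
    (pr s / ((p ^ e : ℕ) : Qb) ^ j) ^ torsBound b = 1 := by
  set z : Qb := pr s / ((p ^ e : ℕ) : Qb) ^ j with hz
  have h1 : 0 < orderOf z := orderOf_pos_iff.2 (isOfFinOrder_iff_pow_eq_one.2 ⟨m, hm, h⟩)
  have h2 := order_dvd h1 (IsPrimitiveRoot.orderOf z) (natDegree_pr_le hQ hb s j)
  exact orderOf_dvd_iff_pow_eq_one.1 h2

/-- exact relations -/
def Exact (q : ℕ) (s : Multiset (Letter Q M)) : Prop :=
  ∃ j : ℕ, pr s = (q : Qb) ^ j ∧ dg s = 2 * j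

section Block

variable {T : Type*} (lab : T → Letter Q M)

/-- half of the degree -/
def hd (u : Multiset T) : ℕ := dg (u.map lab) / 2

/-- the root of unity -/
noncomputable def ze (q : ℕ) (u : Multiset T) : Qb := pr (u.map lab) / (q : Qb) ^ hd lab u

lemma pr_join {q : ℕ} (hq : (q : Qb) ≠ 0) (P : Multiset (Multiset T)) :
    pr (P.join.map lab) = (P.map fun u => ze lab q u).prod * (q : Qb) ^ (P.map (hd lab)).sum := by
  induction P using Multiset.induction with
  | empty => simp [pr]
  | cons u P ih =>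
    have h1 : pr (u.map lab) = ze lab q u * (q : Qb) ^ hd lab u := by
      rw [ze, div_mul_cancel₀ _ (pow_ne_zero _ hq)]
    rw [Multiset.join_cons, Multiset.map_add, Multiset.map_cons, Multiset.prod_cons,
      Multiset.map_cons, Multiset.sum_cons, pow_add]
    have h2 : pr (u.map lab + P.join.map lab) = pr (u.map lab) * pr (P.join.map lab) := by
      rw [pr, pr, pr, Multiset.map_add, Multiset.prod_add]
    rw [h2, h1, ih]
    ring

lemma dg_join {P : Multiset (Multiset T)} (h : ∀ u ∈ P, Even (dg (u.map lab))) :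
    dg (P.join.map lab) = 2 * (P.map (hd lab)).sum := by
  induction P using Multiset.induction with
  | empty => simp [dg]
  | cons u P ih =>
    have h1 : dg (u.map lab) = 2 * hd lab u := by
      have := h u (Multiset.mem_cons_self u P)
      rw [hd]
      have h2 := Nat.two_mul_div_two_of_even this
      omega
    rw [Multiset.join_cons, Multiset.map_add, Multiset.map_cons, Multiset.sum_cons]
    have h2 : dg (u.map lab + P.join.map lab) = dg (u.map lab) + dg (P.join.map lab) := by
      rw [dg, dg, dg, Multiset.map_add, Multiset.sum_add]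
    rw [h2, h1, ih fun v hv => h v (Multiset.mem_cons_of_mem hv)]
    ring

/-- **Small exact blocks.** -/
theorem exists_exact_block (he : 0 < e) (hQ : ∀ i ≤ M, IsFrobPoly p (p ^ e) i (Q i))
    (hb : ∑ i ∈ Finset.range (M + 1), (Q i).natDegree ≤ b) (hM : M ≤ 2 * d)
    (s : Multiset T) (hs : s ≠ 0) (h : Exact (p ^ e) (s.map lab)) :
    ∃ s' ≤ s, s' ≠ 0 ∧ Multiset.card s' ≤ exactBound b d ∧ Exact (p ^ e) (s'.map lab) := by
  classical
  have hq0 : ((p ^ e : ℕ) : Qb) ≠ 0 := by
    exact_mod_cast (pow_pos (Fact.out : p.Prime).pos e).ne'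
  obtain ⟨j, hj1, hj2⟩ := h
  have hsum : ∀ ι : Qb →+* PadicAlgCl p,
      ((s.map lab).map fun x => cs (p ^ e) ι x).sum = 0 :=
    (Bal.sum_zero he hQ one_pos (j := j) (by rw [pow_one, pow_one]; exact hj1)).2
  obtain ⟨P, hP, hPu⟩ := exists_partition (B := powBound b d)
    (R := fun u : Multiset T => Even (dg (u.map lab)) ∧ ∀ ι : Qb →+* PadicAlgCl p,
      ((u.map lab).map fun x => cs (p ^ e) ι x).sum = 0)
    (by
      rintro u u' hle ⟨h1, h2⟩ ⟨h3, h4⟩
      obtain ⟨w, rfl⟩ := Multiset.le_iff_exists_add.1 hle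
      rw [add_tsub_cancel_left]
      constructor
      · have h5 : dg ((u' + w).map lab) = dg (u'.map lab) + dg (w.map lab) := by
          rw [dg, dg, dg, Multiset.map_add, Multiset.map_add, Multiset.sum_add]
        rw [h5] at h1
        exact (Nat.even_add.1 h1).1 h3
      · intro ι
        have h5 := h2 ι
        rw [Multiset.map_add, Multiset.map_add, Multiset.sum_add, h4 ι, zero_add] at h5
        exact h5)
    (fun u hu hR => by
      obtain ⟨u', h1, h2, h3, h4, h5⟩ := exists_bal_block lab he hQ hb hM u hu hR.1 hR.2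
      exact ⟨u', h1, h2, h3, h4, h5⟩)
    (Multiset.card s) s le_rfl ⟨⟨j, by omega⟩, hsum⟩
  have hP0 : P ≠ 0 := by
    rintro rfl
    rw [Multiset.join_zero] at hP
    exact hs hP.symm
  have hBpos : 0 < powBound b d := by
    obtain ⟨u, hu⟩ := Multiset.exists_mem_of_ne_zero hP0
    exact lt_of_lt_of_le (Multiset.card_pos.2 (hPu u hu).1) (hPu u hu).2.1
  have hze : ∀ u ∈ P, ze lab (p ^ e) u ^ torsBound b = 1 := by
    intro u hu
    obtain ⟨j', m, hm, h1, h2⟩ := bal_of_sum_zero he hQ (hPu u hu).2.2.1 (hPu u hu).2.2.2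
    have h3 : hd lab u = j' := by
      rw [hd, h2]
      omega
    rw [ze, h3]
    refine pow_torsBound hQ hb hm ?_
    rw [div_pow, div_eq_one_iff_eq (pow_ne_zero _ (pow_ne_zero _ hq0))]
    exact h1
  rcases le_or_gt (Multiset.card P) (torsBound b) with hc | hc
  · refine ⟨s, le_rfl, hs, ?_, j, hj1, hj2⟩
    rw [← hP]
    refine (card_join_le P fun u hu => (hPu u hu).2.1).trans ?_
    exact Nat.mul_le_mul_right _ hc
  · -- partial products
    set l := P.toList with hl
    have hlP : (l : Multiset (Multiset T)) = P := Multiset.coe_toList P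
    have hlen : l.length = Multiset.card P := by rw [← hlP, Multiset.coe_card]
    have hmem : ∀ u ∈ l, u ∈ P := fun u hu => Multiset.mem_toList.1 hu
    have hpp : ∀ l' : List (Multiset T), (∀ u ∈ l', u ∈ P) →
        ((l'.map fun u => ze lab (p ^ e) u).prod) ^ torsBound b = 1 := by
      intro l'
      induction l' with
      | nil => intro _; simp
      | cons a l' ih =>
        intro hm
        rw [List.map_cons, List.prod_cons, mul_pow, hze a (hm a List.mem_cons_self),
          ih fun u hu => hm u (List.mem_cons_of_mem a hu), one_mul]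
    obtain ⟨i, hi, k, hk, hik, heq⟩ := Finset.exists_ne_map_eq_of_card_lt_of_maps_to
      (s := Finset.range (torsBound b + 1))
      (t := Polynomial.nthRootsFinset (torsBound b) (1 : Qb))
      (f := fun k => ((l.take k).map fun u => ze lab (p ^ e) u).prod) (by
        rw [Finset.card_range]
        refine Nat.lt_succ_of_le ?_
        refine (Multiset.toFinset_card_le _).trans (Polynomial.card_nthRoots _ _)) (by
        intro k _
        rw [Finset.mem_coe, Polynomial.mem_nthRootsFinset (torsBound_pos b)]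
        exact hpp _ fun u hu => hmem u (List.mem_of_mem_take hu))
    have key : ∀ i k : ℕ, i < k → k ≤ torsBound b →
        ((l.take i).map fun u => ze lab (p ^ e) u).prod =
          ((l.take k).map fun u => ze lab (p ^ e) u).prod →
        ∃ s' ≤ s, s' ≠ 0 ∧ Multiset.card s' ≤ exactBound b d ∧ Exact (p ^ e) (s'.map lab) := by
      intro i k hik hk heq
      have h1 : l.take k = l.take i ++ (l.take k).drop i := by
        have h2 : (l.take k).take i = l.take i := by
          rw [List.take_take, min_eq_left hik.le]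
        rw [← h2, List.take_append_drop]
      set P' : Multiset (Multiset T) := Multiset.ofList ((l.take k).drop i) with hP'
      have hle : P' ≤ P := by
        rw [← hlP]
        exact ((List.drop_sublist _ _).trans (List.take_sublist _ _)).subperm
      have hlen' : Multiset.card P' = k - i := by
        rw [hP', Multiset.coe_card, List.length_drop, List.length_take]
        omega
      have hne : P' ≠ 0 := by
        intro h3
        rw [h3, Multiset.card_zero] at hlen'
        omega
      have hprod : (P'.map fun u => ze lab (p ^ e) u).prod = 1 := by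
        rw [hP', Multiset.map_coe, Multiset.prod_coe]
        rw [h1, List.map_append, List.prod_append] at heq
        have h3 : ((l.take i).map fun u => ze lab (p ^ e) u).prod ≠ 0 := by
          intro h4
          have h5 := hpp (l.take i) fun u hu => hmem u (List.mem_of_mem_take hu)
          rw [h4, zero_pow (torsBound_pos b).ne'] at h5
          exact zero_ne_one h5
        exact (mul_eq_left₀ h3).1 heq.symm
      refine ⟨P'.join, hP ▸ join_mono hle, join_ne_zero hne fun u hu =>
        (hPu u (Multiset.mem_of_le hle hu)).1, ?_, (P'.map (hd lab)).sum, ?_, ?_⟩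
      · refine (card_join_le P' fun u hu => (hPu u (Multiset.mem_of_le hle hu)).2.1).trans ?_
        refine Nat.mul_le_mul_right _ ?_
        omega
      · rw [pr_join lab hq0, hprod, one_mul]
      · exact dg_join lab fun u hu => (hPu u (Multiset.mem_of_le hle hu)).2.2.1
    rw [Finset.mem_range] at hi hk
    rcases lt_or_gt_of_ne hik with h1 | h1
    · exact key i k h1 (by omega) heq
    · exact key k i h1 (by omega) heq.symm

end Block

end Pool.Agent.Q56.FE
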