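import Pool.Agent.Q56.FD.Main
import Pool.Agent.Q56.FE.Tors

/-!
# Words of generalised eigenvectors over a fixed finite field
-/

set_option autoImplicit false
set_option linter.unusedSectionVars false

open CategoryTheory AlgebraicGeometry
open scoped TensorProduct

universe u v

namespace Pool.Agent.Q56.FE

open Pool.Agent.H914 Pool.Agent.H447 Pool.Agent.H914.VarClass Pool.Agent.H914.VarClass.Obj
  Pool.Agent.H914.WeilCohomology Pool.Agent.H281R3.HT Pool.Agent.W534
  Pool.Agent.W458.RK Pool.Agent.W458.MF Pool.Agent.W536.RR Pool.Agent.Y133.Half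
  Pool.Agent.Q56.FD

open Polynomial (aeval)

variable {k : Type u} [Field k] {𝒱 : VarClass k} {ops : CycleOps 𝒱}
  {W : WeilCohomology.{u, v} ops} {p : ℕ} [Fact p.Prime] {a : ℕ} {X Y : 𝒱.Obj}
  {Q : ℕ → Polynomial ℤ} {τ : Qb →+* W.K} {Z Z' : 𝒱.Obj}

/-- The associated system of Frobenius endomorphisms. -/
noncomputable def toSystem (F : FrobeniusOver W (p ^ a)) (ha : 0 < a) : FrobSystem W p where
  Fr := F.Fr
  e _ := a
  p_pos := (Fact.out : p.Prime).pos
  e_pos _ := ha
  comm f := ⟨1, 1, one_pos, rfl, by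
    change (𝟙 _ ≫ F.Fr _) ≫ f = f ≫ (𝟙 _ ≫ F.Fr _)
    rw [Category.id_comp, Category.id_comp]
    exact F.nat f⟩
  cyc {X j z} hz := ⟨1, one_pos, by
    change W.map (𝟙 _ ≫ F.Fr _) _ = _
    rw [Category.id_comp, F.cyc hz, mul_one, Nat.cast_pow, ← pow_mul]⟩
  deg {X c} hc := by
    rw [F.deg hc, Nat.cast_pow, ← pow_mul]

variable {F : FrobeniusOver W (p ^ a)} {ha : 0 < a}

lemma frob_eq (Z : 𝒱.Obj) (x : W.H Z) : frob (toSystem F ha) Z 1 x = W.map (F.Fr Z) x := by
  change W.map (𝟙 _ ≫ F.Fr Z) x = _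
  rw [Category.id_comp]

lemma frob_eq' (Z : 𝒱.Obj) : frob (toSystem F ha) Z 1 = (W.map (F.Fr Z)).toLinearMap :=
  LinearMap.ext fun x => frob_eq Z x

lemma card_eq (Z : 𝒱.Obj) : card (toSystem F ha) Z 1 = p ^ a := by
  change p ^ (a * 1) = _
  rw [mul_one]

lemma frob_nat (f : Z ⟶ Y) (y : W.H Y) :
    frob (toSystem F ha) Z 1 (W.map f y) = W.map f (frob (toSystem F ha) Y 1 y) := by
  rw [frob_eq, frob_eq, ← W.map_comp, ← W.map_comp, F.nat]

/-- The sum of the generalised eigenspaces of the Frobenius endomorphism over the given field. -/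
noncomputable def TC1 (F : FrobeniusOver W (p ^ a)) (ha : 0 < a) (Z : 𝒱.Obj) :
    Submodule W.K (W.H Z) :=
  ⨆ j : ℕ, genTate (toSystem F ha) Z 1 j

lemma TC1.of {j : ℕ} {x : W.H Z} (hx : x ∈ genTate (toSystem F ha) Z 1 j) : x ∈ TC1 F ha Z :=
  Submodule.mem_iSup_of_mem j hx

lemma TC1.ind {q : W.H Z → Prop} (h : ∀ j, ∀ x ∈ genTate (toSystem F ha) Z 1 j, q x) (h0 : q 0)
    (hadd : ∀ x y, q x → q y → q (x + y)) {x : W.H Z} (hx : x ∈ TC1 F ha Z) : q x :=
  Submodule.iSup_induction _ (motive := q) hx (fun j x hx => h j x hx) h0 hadd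

lemma TC1.map (f : Z ⟶ Y) {y : W.H Y} (hy : y ∈ TC1 F ha Y) : W.map f y ∈ TC1 F ha Z := by
  refine TC1.ind (q := fun y => W.map f y ∈ TC1 F ha Z) ?_ ?_ ?_ hy
  · intro j y hy
    refine TC1.of (j := j) ⟨?_, W.map_mem f hy.2⟩
    have h1 := gen_map (θ := (W.map f).toLinearMap) (T := frob (toSystem F ha) Y 1)
      (T' := frob (toSystem F ha) Z 1) (c := 1) (fun x => by
        rw [one_smul]
        exact frob_nat f x) hy.1
    rw [one_mul, card_eq] at h1
    change W.map f y ∈ (frob (toSystem F ha) Z 1).maxGenEigenspace _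
    rw [card_eq]
    exact h1
  · rw [map_zero]; exact Submodule.zero_mem _
  · intro a b ha hb; rw [map_add]; exact Submodule.add_mem _ ha hb

/-- all letters are generalised eigenvectors over the given field -/
lemma at_one (l : GLet (toSystem F ha) X Q τ Z) : l.At 1 := by
  intro s' hs'
  change s' * a = 1 * a at hs'
  obtain rfl : s' = 1 := Nat.eq_of_mul_eq_mul_right ha hs'
  rw [pow_one]
  have h1 := gen_map (θ := (W.map l.f).toLinearMap) (T := frob (toSystem F ha) X 1)
    (T' := frob (toSystem F ha) Z 1) (c := 1) (fun x => by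
      rw [one_smul]
      exact frob_nat l.f x) l.hg
  rwa [one_mul] at h1

lemma word_gen1 (L : List (GLet (toSystem F ha) X Q τ Z)) :
    wordVal L ∈ (frob (toSystem F ha) Z 1).maxGenEigenspace (τ (pr (labs L))) := by
  have hs : 1 * (toSystem F ha).e X = 1 * (toSystem F ha).e Z := rfl
  have h1 := word_gen (Φ := toSystem F ha) (s := 1) (s' := 1) hs L fun l _ => at_one l
  rwa [pow_one] at h1

/-- exact words are Tate classes -/
lemma word_TC1 {L : List (GLet (toSystem F ha) X Q τ Z)} (hb : Exact (p ^ a) (labs L)) :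
    wordVal L ∈ TC1 F ha Z := by
  obtain ⟨j, hpr, hdg⟩ := hb
  refine TC1.of (j := j) ⟨?_, ?_⟩
  · change wordVal L ∈ (frob (toSystem F ha) Z 1).maxGenEigenspace _
    have h1 := word_gen1 L
    rwa [hpr, map_pow, map_natCast, ← card_eq (F := F) (ha := ha) Z] at h1
  · rw [← hdg]
    exact wordVal_mem L

lemma block_alg1 {m : ℕ} (hT : TC1 F ha (pw X m) ≤ algSpan W (pw X m))
    {L : List (GLet (toSystem F ha) X Q τ Z)}
    (hL : L.length = m + 1) (hb : Exact (p ^ a) (labs L)) : wordVal L ∈ algSpan W Z := by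
  obtain ⟨g, L', rfl⟩ := exists_pull m L hL
  rw [wordVal_pull]
  rw [labs_pull] at hb
  exact algSpan_map g (hT (word_TC1 hb))

variable {b d : ℕ}

/-- **Exact words are algebraic.** -/
theorem exact_alg (hQ : ∀ i ≤ 2 * X.dim, IsFrobPoly p (p ^ a) i (Q i))
    (hb : ∑ i ∈ Finset.range (2 * X.dim + 1), (Q i).natDegree ≤ b) (hd : X.dim ≤ d)
    (hT : ∀ m < exactBound b d, TC1 F ha (pw X m) ≤ algSpan W (pw X m)) :
    ∀ (n : ℕ) (L : List (GLet (toSystem F ha) X Q τ Z)), L.length ≤ n →
      Exact (p ^ a) (labs L) → wordVal L ∈ algSpan W Z := by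
  classical
  intro n
  induction n with
  | zero =>
    intro L hL _
    rw [List.length_eq_zero_iff.1 (Nat.le_zero.1 hL), wordVal_nil]
    exact one_mem_algSpan
  | succ n ih =>
    intro L hL hex
    by_cases hL0 : L = []
    · rw [hL0, wordVal_nil]
      exact one_mem_algSpan
    obtain ⟨s', hle, hne, hcard, hex'⟩ := exists_exact_block GLet.lab ha hQ hb
      (show 2 * X.dim ≤ 2 * d by omega) (L : Multiset (GLet (toSystem F ha) X Q τ Z))
      (by rwa [ne_eq, Multiset.coe_eq_zero]) hex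
    obtain ⟨u, hu⟩ := Multiset.le_iff_exists_add.1 hle
    have h1 : (s'.toList : Multiset (GLet (toSystem F ha) X Q τ Z)) = s' :=
      Multiset.coe_toList s'
    have h2 : (u.toList : Multiset (GLet (toSystem F ha) X Q τ Z)) = u := Multiset.coe_toList u
    have hperm : L.Perm (s'.toList ++ u.toList) := by
      rw [← Multiset.coe_eq_coe, ← Multiset.coe_add, h1, h2]
      exact hu
    obtain ⟨c, hc⟩ := wordVal_perm hperm
    rw [hc, wordVal_append]
    have hl1 : labs s'.toList = s'.map GLet.lab := by rw [labs, h1]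
    have hl2 : labs u.toList = u.map GLet.lab := by rw [labs, h2]
    have hlL : labs L = s'.map GLet.lab + u.map GLet.lab := by
      rw [labs, hu, Multiset.map_add]
    refine Submodule.smul_mem _ _ (algSpan_mul ?_ (ih _ ?_ ?_))
    · have hpos : 0 < Multiset.card s' := Multiset.card_pos.2 hne
      refine block_alg1 (m := Multiset.card s' - 1) (hT _ (by omega)) ?_ ?_
      · rw [Multiset.length_toList]
        omega
      · rw [hl1]
        exact hex'
    · have h3 := hperm.length_eq
      rw [List.length_append, Multiset.length_toList] at h3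
      have hpos : 0 < Multiset.card s' := Multiset.card_pos.2 hne
      omega
    · rw [hl2]
      obtain ⟨j, hj1, hj2⟩ := hex
      obtain ⟨j', hj1', hj2'⟩ := hex'
      have h3 : dg (labs L) = dg (s'.map GLet.lab) + dg (u.map GLet.lab) := by
        rw [hlL, dg, Multiset.map_add, Multiset.sum_add]
        rfl
      have h4 : pr (labs L) = pr (s'.map GLet.lab) * pr (u.map GLet.lab) := by
        rw [hlL, pr, Multiset.map_add, Multiset.prod_add]
        rfl
      refine ⟨j - j', ?_, by omega⟩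
      have hq0 : ((p ^ a : ℕ) : Qb) ≠ 0 := by
        exact_mod_cast (pow_pos (Fact.out : p.Prime).pos a).ne'
      apply mul_left_cancel₀ (pow_ne_zero j' hq0)
      rw [← pow_add, ← hj1', ← h4, Nat.add_sub_cancel' (by omega)]
      exact hj1

/-- The generalised Tate classes over the given field on the products of copies of `X` are
algebraic if this is so for the small powers. -/
theorem TC1_le_of (hQ : ∀ i ≤ 2 * X.dim, IsFrobPoly p (p ^ a) i (Q i))
    (hb : ∑ i ∈ Finset.range (2 * X.dim + 1), (Q i).natDegree ≤ b) (hd : X.dim ≤ d)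
    (hT : ∀ m < exactBound b d, TC1 F ha (pw X m) ≤ algSpan W (pw X m))
    (hZ : ∀ z : W.H Z, z ∈ Submodule.span W.K
      (Set.range fun L : List (GLet (toSystem F ha) X Q τ Z) => wordVal L)) :
    TC1 F ha Z ≤ algSpan W Z := by
  intro y hy
  refine TC1.ind (q := fun y => y ∈ algSpan W Z) ?_ (Submodule.zero_mem _)
    (fun x y hx hy => Submodule.add_mem _ hx hy) hy
  intro j x hx
  have h2 := hx.1
  change x ∈ (frob (toSystem F ha) Z 1).maxGenEigenspace _ at h2
  have h3 := mem_span_gen (T := frob (toSystem F ha) Z 1) (fun v hv => by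
    obtain ⟨L, rfl⟩ := hv
    exact ⟨_, word_gen1 L⟩) (hZ x) h2
  refine (Submodule.span_le (p := algSpan W Z)).2 ?_ h3
  rintro v ⟨hv, hvμ⟩
  by_cases hv0 : v = 0
  · rw [hv0]
    exact Submodule.zero_mem _
  obtain ⟨L, rfl⟩ := hv
  refine exact_alg hQ hb hd hT L.length L le_rfl ?_
  have h4 := eq_of_mem_gen (word_gen1 L) hvμ hv0
  have h5 : pr (labs L) = ((p ^ a : ℕ) : Qb) ^ j := by
    apply τ.injective
    rw [h4, card_eq, map_pow, map_natCast]
  exact ⟨j, h5, (Bal.sum_zero ha hQ one_pos (j := j) (by rw [pow_one, pow_one]; exact h5)).1⟩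

end Pool.Agent.Q56.FE
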