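import Pool.Agent.Q56.FD.Pole
import Pool.Agent.Q56.FE.Exact

/-!
# One explicit power decides the full Tate conjecture over the given finite field
-/

set_option autoImplicit false
set_option linter.unusedSectionVars false

open CategoryTheory AlgebraicGeometry
open scoped TensorProduct

universe u v

namespace Pool.Agent.Q56.FE

open Pool.Agent.H914 Pool.Agent.H447 Pool.Agent.H914.VarClass Pool.Agent.H914.VarClass.Obj
  Pool.Agent.H914.WeilCohomology Pool.Agent.H281R3.HT Pool.Agent.W534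
  Pool.Agent.W458.RK Pool.Agent.W458.MF Pool.Agent.W536.RR Pool.Agent.Y133.Half
  Pool.Agent.Q56.FD

open Polynomial (aeval)

variable {k : Type u} [Field k] {𝒱 : VarClass k} {ops : CycleOps 𝒱}
  {W : WeilCohomology.{u, v} ops} {X Y Z : 𝒱.Obj}

section Basis

/-- Numerically independent cycles have independent classes. -/
lemma indep_cl {ι : Type*} [Fintype ι] {j : ℕ} (hj : j ≤ Z.dim)
    (z : ι → {z : Z.Cycles // Z.IsCyc j z})
    (h : LinearIndependent ℚ (fun i => interNumbers ops Z j (z i))) :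
    LinearIndependent W.K (fun i => W.cl Z (z i).1) := by
  rw [Fintype.linearIndependent_iff]
  intro c hc i
  have h1 := lin_ext (K := W.K) h (c := c) fun w => by
    have h2 := congrArg (fun x => W.tr Z (x * W.cl Z w.1)) hc
    simp only [Finset.sum_mul, smul_mul_assoc, map_sum, map_smul, zero_mul, map_zero,
      smul_eq_mul] at h2
    rw [← h2]
    refine Finset.sum_congr rfl fun i _ => ?_
    rw [tr_mul_cl (z i).2 w.2 (by omega)]
    rfl
  exact congrFun h1 i

/-- A basis of the space of the classes of cycles with rational coefficients. -/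
theorem exists_rat_basis {j : ℕ} (hj : j ≤ Z.dim) (hD : HomEqNumIn W Z j) :
    ∃ (r : ℕ) (z : Fin r → Z.Cycles), (∀ i, Z.IsCyc j (z i)) ∧
      LinearIndependent W.K (fun i => W.cl Z (z i)) ∧
      ∀ w, Z.IsCyc j w → ∃ c : Fin r → ℚ, W.cl Z w = ∑ i, (c i : W.K) • W.cl Z (z i) := by
  classical
  obtain ⟨κ, a, -, hspan, hli⟩ := exists_linearIndependent' ℚ (interNumbers ops Z j)
  have hli' : LinearIndependent W.K (fun i => W.cl Z (a i).1) := by
    rw [linearIndependent_iff_finset_linearIndependent]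
    intro s
    exact indep_cl hj (fun i : s => a i) (hli.comp _ Subtype.val_injective)
  have hfin : Finite κ := hli'.finite
  have : Fintype κ := Fintype.ofFinite κ
  let e := Fintype.equivFin κ
  refine ⟨Fintype.card κ, fun i => (a (e.symm i)).1, fun i => (a (e.symm i)).2,
    hli'.comp _ e.symm.injective, fun w hw => ?_⟩
  have h1 : interNumbers ops Z j ⟨w, hw⟩ ∈
      Submodule.span ℚ (Set.range (interNumbers ops Z j ∘ a)) := by
    rw [hspan]
    exact Submodule.subset_span ⟨_, rfl⟩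
  obtain ⟨c, hc⟩ := (Submodule.mem_span_range_iff_exists_fun ℚ).1 h1
  refine ⟨fun i => c (e.symm i), ?_⟩
  rw [e.symm.sum_comp (fun i => ((c i : ℚ) : W.K) • W.cl Z (a i).1)]
  have hsum : ∀ s : Finset κ, Z.IsCyc j (∑ i ∈ s, c i • (a i).1) := fun s =>
    Finset.sum_induction _ (fun u => Z.IsCyc j u) (fun a b => SmVar.IsCyc.add)
      (SmVar.IsCyc.zero _ _) (fun i _ => (a i).2.smul _)
  have hcl : W.cl Z (∑ i, c i • (a i).1) = ∑ i, ((c i : ℚ) : W.K) • W.cl Z (a i).1 := by
    rw [map_sum]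
    exact Finset.sum_congr rfl fun i _ => cl_smul W _ _
  have hneg : Z.IsCyc j ((-1 : ℚ) • ∑ i, c i • (a i).1) := (hsum _).smul _
  have hu : Z.IsCyc j (w + (-1 : ℚ) • ∑ i, c i • (a i).1) := SmVar.IsCyc.add hw hneg
  have h2 := hD _ hu fun y hy => by
    have h3 := tr_mul_cl (W := W) hu hy (show j + (Z.dim - j) = Z.dim by omega)
    have h4 : W.tr Z (W.cl Z (w + (-1 : ℚ) • ∑ i, c i • (a i).1) * W.cl Z y) = 0 := by
      rw [map_add, cl_smul, hcl, add_mul, map_add, tr_mul_cl hw hy (by omega), smul_mul_assoc,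
        map_smul, Finset.sum_mul, map_sum]
      have h5 : ((Z.V.degCycle (ops.mul w y) : ℚ) : W.K) =
          ∑ i, W.tr Z (((c i : ℚ) : W.K) • W.cl Z (a i).1 * W.cl Z y) := by
        have h6 := congrFun hc ⟨y, hy⟩
        rw [Finset.sum_apply] at h6
        have h7 : Z.V.degCycle (ops.mul w y) = ∑ i, c i * interNumbers ops Z j (a i) ⟨y, hy⟩ := by
          rw [show Z.V.degCycle (ops.mul w y) = interNumbers ops Z j ⟨w, hw⟩ ⟨y, hy⟩ from rfl,
            ← h6]
          rfl
        rw [h7, Rat.cast_sum]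
        refine Finset.sum_congr rfl fun i _ => ?_
        rw [smul_mul_assoc, map_smul, tr_mul_cl (a i).2 hy (by omega), smul_eq_mul, Rat.cast_mul]
        rfl
      rw [h5, smul_eq_mul]
      push_cast
      ring
    rw [h4] at h3
    exact_mod_cast h3.symm
  rw [map_add, cl_smul, hcl] at h2
  push_cast at h2
  rw [neg_smul, one_smul, ← sub_eq_add_neg, sub_eq_zero] at h2
  exact h2

end Basis

variable {q : ℕ} {F : FrobeniusOver W q}

lemma isTateClass_of_span {j : ℕ} {x : W.H Z} (hx : x ∈ spanCycles W Z j) :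
    IsTateClass F Z j x := by
  unfold spanCycles at hx
  induction hx using Submodule.span_induction with
  | mem y hy =>
    obtain ⟨r, hr, w, hw, rfl⟩ := hy
    obtain rfl : r = j := by exact_mod_cast hr
    exact ⟨W.cl_mem hw, F.cyc hw⟩
  | zero => exact ⟨Submodule.zero_mem _, by rw [map_zero, smul_zero]⟩
  | add x y _ _ hx hy =>
    exact ⟨Submodule.add_mem _ hx.1 hy.1, by rw [map_add, hx.2, hy.2, smul_add]⟩
  | smul a x _ hx =>
    exact ⟨Submodule.smul_mem _ _ hx.1, by rw [map_smul, hx.2, smul_comm]⟩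

lemma full_of {j : ℕ} (hD : j ≤ Z.dim → HomEqNumIn W Z j) (hT : TateOnto F Z j) :
    FullTate F Z j := by
  by_cases hj : j ≤ Z.dim
  · obtain ⟨r, z, hz, hli, hrat⟩ := exists_rat_basis hj (hD hj)
    refine ⟨r, z, hz, hli, hrat, fun x => ⟨fun hx => ?_, fun hx => ?_⟩⟩
    · refine (Submodule.span_le (p := Submodule.span W.K
        (Set.range fun i => W.cl Z (z i)))).2 ?_ (hT x hx)
      rintro y ⟨s, hs, w, hw, rfl⟩
      obtain rfl : s = j := by exact_mod_cast hs
      obtain ⟨c, hc⟩ := hrat w hw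
      rw [hc]
      exact Submodule.sum_mem _ fun i _ =>
        Submodule.smul_mem _ _ (Submodule.subset_span ⟨i, rfl⟩)
    · refine isTateClass_of_span ((Submodule.span_le (p := spanCycles W Z j)).2 ?_ hx)
      rintro y ⟨i, rfl⟩
      exact mem_span_cl (hz i)
  · have h0 : W.gr Z (2 * j) = ⊥ := W.gr_eq_bot Z _ (by omega)
    have hz : ∀ x ∈ W.gr Z (2 * j), x = 0 := fun x hx => by
      rw [h0] at hx
      exact (Submodule.mem_bot _).1 hx
    refine ⟨0, Fin.elim0, fun i => i.elim0, linearIndependent_empty_type, fun w hw =>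
      ⟨Fin.elim0, ?_⟩, fun x => ⟨fun hx => ?_, fun hx => ?_⟩⟩
    · rw [Finset.univ_eq_empty, Finset.sum_empty]
      exact hz _ (W.cl_mem hw)
    · rw [hz x hx.1]
      exact Submodule.zero_mem _
    · rw [Set.range_eq_empty, Submodule.span_empty] at hx
      rw [(Submodule.mem_bot _).1 hx]
      exact ⟨Submodule.zero_mem _, by rw [map_zero, smul_zero]⟩

/-- The operator of Frobenius on products -/
lemma frob_prod (X Y : 𝒱.Obj) : (W.map (F.Fr (X.prod Y))).toLinearMap =
    extOp W (W.map (F.Fr X)).toLinearMap (W.map (F.Fr Y)).toLinearMap := by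
  apply xp_ext
  intro i j x _ y _
  rw [extOp_xp]
  change W.map (F.Fr (X.prod Y)) (xp W x y) = xp W (W.map (F.Fr X) x) (W.map (F.Fr Y) y)
  rw [xp, map_mul, ← W.map_comp, ← W.map_comp, F.nat, F.nat, W.map_comp, W.map_comp]
  rfl

lemma semisimple_pw (h : IsSemisimpleOn F X) : ∀ n, IsSemisimpleOn F (pw X n)
  | 0 => h
  | n + 1 => by
    change Module.End.IsSemisimple (W.map (F.Fr ((pw X n).prod X))).toLinearMap
    rw [frob_prod]
    exact semisimple_ext (semisimple_pw h n) h

lemma strong_iff_onto (h : IsSemisimpleOn F Z) (j : ℕ) : StrongTate F Z j ↔ TateOnto F Z j := by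
  have h2 := h.isFinitelySemisimple.maxGenEigenspace_eq_eigenspace ((q : W.K) ^ j)
  rw [StrongTate, h2]
  constructor
  · intro h3 c hc
    exact h3 ⟨Module.End.mem_eigenspace_iff.2 hc.2, hc.1⟩
  · rintro h3 c ⟨hc, hc'⟩
    exact h3 c ⟨hc', Module.End.mem_eigenspace_iff.1 hc⟩

lemma onto_of_strong {j : ℕ} (h : StrongTate F Z j) : TateOnto F Z j := fun _ hc =>
  h ⟨eig_mem_gen hc.2, hc.1⟩

section Prime

variable {p : ℕ} [Fact p.Prime] {a : ℕ} {F : FrobeniusOver W (p ^ a)} {ha : 0 < a}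

lemma genTate_eq (Z : 𝒱.Obj) (j : ℕ) : genTate (toSystem F ha) Z 1 j =
    Module.End.maxGenEigenspace (M := W.H Z) (W.map (F.Fr Z)).toLinearMap
      (((p ^ a : ℕ) : W.K) ^ j) ⊓ W.gr Z (2 * j) := by
  have h1 : genTate (toSystem F ha) Z 1 j = (frob (toSystem F ha) Z 1).maxGenEigenspace
      ((card (toSystem F ha) Z 1 : W.K) ^ j) ⊓ W.gr Z (2 * j) := rfl
  rw [h1, card_eq (F := F) (ha := ha) Z, frob_eq' (F := F) (ha := ha) Z]

lemma strong_iff1 (Z : 𝒱.Obj) : (∀ j, StrongTate F Z j) ↔ TC1 F ha Z ≤ algSpan W Z := by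
  constructor
  · intro h x hx
    refine TC1.ind (q := fun x => x ∈ algSpan W Z) ?_ (Submodule.zero_mem _)
      (fun x y hx hy => Submodule.add_mem _ hx hy) hx
    intro j x hx
    rw [genTate_eq] at hx
    exact Pool.Agent.W397.MF.spanCycles_le_algSpan _ (h j hx)
  · intro h j x hx
    have hx' := hx
    rw [← genTate_eq (ha := ha)] at hx'
    exact spanCycles_of_algSpan (h (TC1.of hx')) hx.2

lemma TC1_down (g : Y ⟶ X) (h : TC1 F ha (Y.prod X) ≤ algSpan W (Y.prod X)) :
    TC1 F ha Y ≤ algSpan W Y := by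
  intro x hx
  have h1 := algSpan_map (lift (𝟙 Y) g) (h (TC1.map (fst Y X) hx))
  rw [← W.map_comp, lift_fst, W.map_id] at h1
  exact h1

lemma TC1_pw_down {n : ℕ} (h : TC1 F ha (pw X n) ≤ algSpan W (pw X n)) :
    ∀ m ≤ n, TC1 F ha (pw X m) ≤ algSpan W (pw X m) := by
  induction n with
  | zero =>
    intro m hm
    obtain rfl : m = 0 := by omega
    exact h
  | succ n ih =>
    intro m hm
    rcases Nat.lt_or_ge n m with h1 | h1
    · obtain rfl : m = n + 1 := by omega
      exact h
    · exact ih (TC1_down (pw_map X n).some h) m h1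

lemma homEqNum_of_strong1 (h : ∀ j, StrongTate F Z j) (ha : 0 < a) {j : ℕ} (hj : j ≤ Z.dim) :
    HomEqNumIn W Z j := by
  obtain ⟨l, hl⟩ := Nat.exists_eq_add_of_le hj
  intro z hz hnum
  have hz' : W.cl Z z ∈ genTate (toSystem F ha) Z 1 j := by
    rw [genTate_eq]
    exact ⟨eig_mem_gen (F.cyc hz), W.cl_mem hz⟩
  refine genTate_nondeg (toSystem F ha) hl.symm hz' fun y hy => ?_
  rw [genTate_eq] at hy
  have hy' := h l hy
  clear hy
  unfold spanCycles at hy'
  induction hy' using Submodule.span_induction with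
  | mem y hy =>
    obtain ⟨r, hr, w, hw, rfl⟩ := hy
    obtain rfl : r = l := by exact_mod_cast hr
    rw [tr_mul_cl hz hw hl.symm, hnum w (by rwa [show Z.dim - j = r by omega]), Rat.cast_zero]
  | zero => rw [mul_zero, map_zero]
  | add x y _ _ hx hy => rw [mul_add, map_add, hx, hy, add_zero]
  | smul a x _ hx => rw [mul_smul_comm, map_smul, hx, smul_zero]

/-- The strong form implies the full form. -/
theorem full_of_strong (ha : 0 < a) (h : ∀ j, StrongTate F Z j) (j : ℕ) : FullTate F Z j :=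
  full_of (fun hj => homEqNum_of_strong1 h ha hj) (onto_of_strong (h j))

variable {b d : ℕ}

/-- **The strong Tate conjecture over the given field for one power.** -/
theorem strong_of_one1 [IsAlgClosed W.K] (ha : 0 < a) (hb : Module.finrank W.K (W.H X) ≤ b)
    (hd : X.dim ≤ d)
    (hP : ∀ i ≤ 2 * X.dim, ∃ P : Polynomial ℤ, IsFrobPoly p (p ^ a) i P ∧
      P.map (algebraMap ℤ W.K) = charpolyOn (W.map (F.Fr X)).toLinearMap (W.gr X i))
    (hT : ∀ j, StrongTate F (pw X (exactBound b d - 1)) j) (n : ℕ) :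
    ∀ j, StrongTate F (pw X n) j := by
  classical
  let Q : ℕ → Polynomial ℤ := fun i => if h : i ≤ 2 * X.dim then (hP i h).choose else 1
  have hQ : ∀ i ≤ 2 * X.dim, IsFrobPoly p (p ^ a) i (Q i) := by
    intro i hi
    simp only [Q, dif_pos hi]
    exact (hP i hi).choose_spec.1
  have hQc : IsCharpoly (toSystem F ha) X Q := by
    intro i hi
    simp only [Q, dif_pos hi]
    exact (hP i hi).choose_spec.2
  have hsum : ∑ i ∈ Finset.range (2 * X.dim + 1), (Q i).natDegree ≤ b := by
    rw [sum_natDegree hQc fun i hi => (hQ i hi).monic]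
    exact hb
  let τ : Qb →+* W.K := (IsAlgClosed.lift : Qb →ₐ[ℚ] W.K).toRingHom
  rw [strong_iff1 (ha := ha)] at hT ⊢
  exact TC1_le_of (τ := τ) hQ hsum hd (fun m hm => TC1_pw_down hT m (by omega))
    (span_words hQc (fun i hi => (hQ i hi).monic.ne_zero) n)

end Prime

end Pool.Agent.Q56.FE
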