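import Pool.Agent.Q56.FE.Defs

/-!
# The cohomology of open subvarieties
-/

set_option autoImplicit false

open CategoryTheory AlgebraicGeometry

universe u v

namespace Pool.Agent.Q56.FE

open Pool.Agent.H914 Pool.Agent.H914.VarClass Pool.Agent.H914.VarClass.Obj
  Pool.Agent.H914.WeilCohomology Pool.Agent.W534

variable {k : Type u} [Field k] {𝒱 : VarClass k} {ops : CycleOps 𝒱}

/-- The complement of the open set `U` has codimension at least `i`. -/
def CodimGe {Y : 𝒱.Obj} (U : Y.V.X.Opens) (i : ℕ) : Prop :=
  ∀ x : Y.V.X, x ∉ U → (i : ℕ∞) ≤ Order.coheight x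

/-- The cycle `z` on `Y` is supported on the complement of the open set `U`. -/
def SupportedOff {Y : 𝒱.Obj} (U : Y.V.X.Opens) (z : Y.Cycles) : Prop :=
  ∀ x : Y.V.X, Y.V.coeff z x ≠ 0 → x ∉ U

/-- The span of the classes of the cycles of codimension `i` which are supported on the complement
of `U`. -/
def spanOff (W : WeilCohomology.{u, v} ops) {Y : 𝒱.Obj} (U : Y.V.X.Opens) (i : ℕ) :
    Submodule W.K (W.H Y) :=
  Submodule.span W.K {y | ∃ z, Y.IsCyc i z ∧ SupportedOff U z ∧ W.cl Y z = y}

variable {W : WeilCohomology.{u, v} ops} {q : ℕ}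

/-- The generalised eigenspace of the Frobenius endomorphism in degree `2 i` for the eigenvalue
`q ^ i`. -/
noncomputable def genEig (F : FrobeniusOver W q) (Y : 𝒱.Obj) (i : ℕ) : Submodule W.K (W.H Y) :=
  Module.End.maxGenEigenspace (M := W.H Y) (W.map (F.Fr Y)).toLinearMap ((q : W.K) ^ i) ⊓
    W.gr Y (2 * i)

/-- The cohomology groups `H^(2 i)(U)` of the open subvarieties `U` of the varieties `Y` of the
class, the restriction maps and the Frobenius endomorphisms. -/
structure OpenData (W : WeilCohomology.{u, v} ops) where
  /-- the cohomology group `H^(2 i)(U)` of the open subvariety `U` of `Y` -/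
  H : ∀ (Y : 𝒱.Obj) (_ : Y.V.X.Opens) (_ : ℕ), Type v
  [addCommGroup : ∀ Y U i, AddCommGroup (H Y U i)]
  [module : ∀ Y U i, Module W.K (H Y U i)]
  /-- the restriction (used in degree `2 i`) -/
  res : ∀ (Y : 𝒱.Obj) (U : Y.V.X.Opens) (i : ℕ), W.H Y →ₗ[W.K] H Y U i
  /-- the Frobenius endomorphism -/
  frob : ∀ (Y : 𝒱.Obj) (U : Y.V.X.Opens) (i : ℕ), H Y U i →ₗ[W.K] H Y U i

attribute [instance] OpenData.addCommGroup OpenData.module

/-- The restriction of the class `x` to the open subvariety `U`. -/
def OpenData.restrict (O : OpenData W) {Y : 𝒱.Obj} (U : Y.V.X.Opens) (i : ℕ) (x : W.H Y) :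
    O.H Y U i := O.res Y U i x

/-- The image of the class `c` under the Frobenius endomorphism. -/
def OpenData.frobenius (O : OpenData W) {Y : 𝒱.Obj} {U : Y.V.X.Opens} {i : ℕ} (c : O.H Y U i) :
    O.H Y U i := O.frob Y U i c

/-- The class `c` in `H^(2 i)(U)` is a Tate class over the field with `q` elements: the Frobenius
endomorphism acts on it as the multiplication by `q ^ i`. -/
def OpenData.IsTate (O : OpenData W) (q : ℕ) {Y : 𝒱.Obj} {U : Y.V.X.Opens} {i : ℕ}
    (c : O.H Y U i) : Prop := O.frobenius c = ((q : W.K) ^ i) • c

/-- The restriction from `Y` to `U` in degree `2 i` commutes with the Frobenius endomorphisms. -/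
def ResFrob (F : FrobeniusOver W q) (O : OpenData W) (Y : 𝒱.Obj) (U : Y.V.X.Opens) (i : ℕ) :
    Prop :=
  ∀ x ∈ W.gr Y (2 * i), O.frobenius (O.restrict U i x) = O.restrict U i (W.map (F.Fr Y) x)

/-- The classes of cycles vanish outside of the support of the cycle. -/
def ResCl (O : OpenData W) (Y : 𝒱.Obj) (U : Y.V.X.Opens) (i : ℕ) : Prop :=
  ∀ z : Y.Cycles, Y.IsCyc i z → SupportedOff U z → O.restrict U i (W.cl Y z) = 0

/-- Purity. If the complement of `U` has codimension at least `i`, then all generalised eigenvectors
of the Frobenius endomorphism in degree `2 i` with the eigenvalue `q ^ i` which vanish on `U` are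
combinations of classes of cycles supported on the complement of `U`. (The kernel of the restriction
is spanned by the classes of the geometric irreducible components of codimension `i` of the
complement, and they are permuted by Frobenius up to the factor `q ^ i`.) -/
def Purity (F : FrobeniusOver W q) (O : OpenData W) (Y : 𝒱.Obj) (U : Y.V.X.Opens) (i : ℕ) :
    Prop :=
  CodimGe U i → ∀ x ∈ genEig F Y i, O.restrict U i x = 0 → x ∈ spanOff W U i

/-- Weights. All Tate classes in degree `2 i` on `U` are restrictions of classes on `Y`, because the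
weights of Frobenius on the cokernel of the restriction are greater than `2 i`. -/
def Weights (O : OpenData W) (q : ℕ) (Y : 𝒱.Obj) (U : Y.V.X.Opens) (i : ℕ) : Prop :=
  ∀ c : O.H Y U i, O.IsTate q c → ∃ x ∈ W.gr Y (2 * i), O.restrict U i x = c

/-- The cohomology of even degree of the open subvarieties of the varieties of the class over the
field with `q` elements: the groups `H^(2 i)(U)` with the restriction maps from `H^(2 i)(Y)` and
the Frobenius endomorphisms. The properties are theorems for `l`-adic cohomology. -/
structure OpenCohomology (F : FrobeniusOver W q) extends OpenData W where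
  res_frob : ∀ Y U i, ResFrob F toOpenData Y U i
  res_cl : ∀ Y U i, ResCl toOpenData Y U i
  purity : ∀ Y U i, Purity F toOpenData Y U i
  weights : ∀ Y U i, Weights toOpenData q Y U i

variable {F : FrobeniusOver W q}

/-- The Tate conjecture `T^i(U)` for the open subvariety `U` of `Y` over the field with `q`
elements: every Tate class in `H^(2 i)(U)` is a linear combination of the classes of cycles of
codimension `i` on `U` (these are the restrictions of the classes of cycles on `Y`). -/
def TateOpen (O : OpenCohomology F) (Y : 𝒱.Obj) (U : Y.V.X.Opens) (i : ℕ) : Prop :=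
  ∀ c : O.H Y U i, O.IsTate q c → ∃ x ∈ spanCycles W Y i, O.restrict U i x = c

/-- `T^i(U)` holds for all `i` and for all open subvarieties `U` of `Y`. -/
def AllOpens (O : OpenCohomology F) (Y : 𝒱.Obj) : Prop := ∀ i U, TateOpen O Y U i

/-- `T^i(U)` holds for all `i` and for all open subvarieties `U` of `Y` whose complement has
codimension at least `i`. -/
def LargeOpens (O : OpenCohomology F) (Y : 𝒱.Obj) : Prop :=
  ∀ i (U : Y.V.X.Opens), CodimGe U i → TateOpen O Y U i

/-- The strong Tate conjecture for `Y` in all codimensions. -/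
def StrongTateAll (F : FrobeniusOver W q) (Y : 𝒱.Obj) : Prop := ∀ j, StrongTate F Y j

/-- The characteristic polynomials of the Frobenius endomorphism of `X` over the field with `p ^ a`
elements are Frobenius polynomials: they have integral coefficients (Deligne), satisfy the Riemann
hypothesis (Deligne), and the slopes times their multiplicities are integers (Katz-Messing,
Dieudonne-Manin). This is a theorem for smooth projective varieties over finite fields. -/
def HasFrobPolys {p a : ℕ} [Fact p.Prime] (F : FrobeniusOver W (p ^ a)) (X : 𝒱.Obj) : Prop :=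
  ∀ i ≤ 2 * X.dim, ∃ P : Polynomial ℤ, Pool.Agent.Q56.FD.IsFrobPoly p (p ^ a) i P ∧
    P.map (algebraMap ℤ W.K) = charpolyOn (W.map (F.Fr X)).toLinearMap (W.gr X i)

end Pool.Agent.Q56.FE
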