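import Pool.Agent.Q56.FE.Main
import Pool.Agent.Q56.FE.OpenDefs

/-!
# The Tate conjecture for open subvarieties
-/

set_option autoImplicit false
set_option linter.unusedSectionVars false

open CategoryTheory AlgebraicGeometry

universe u v

namespace Pool.Agent.Q56.FE

open Pool.Agent.H914 Pool.Agent.H447 Pool.Agent.H914.VarClass Pool.Agent.H914.VarClass.Obj
  Pool.Agent.H914.WeilCohomology Pool.Agent.H281R3.HT Pool.Agent.W534
  Pool.Agent.W458.RK Pool.Agent.W458.MF Pool.Agent.W536.RR Pool.Agent.Y133.Half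
  Pool.Agent.Q56.FD

variable {k : Type u} [Field k] {𝒱 : VarClass k} {ops : CycleOps 𝒱}

lemma CodimGe.inf {Y : 𝒱.Obj} {U V : Y.V.X.Opens} {i : ℕ} (hU : CodimGe U i)
    (hV : CodimGe V i) : CodimGe (U ⊓ V) i := by
  intro x hx
  by_cases h : x ∈ U
  · exact hV x fun h' => hx ⟨h, h'⟩
  · exact hU x h

lemma SupportedOff.mono {Y : 𝒱.Obj} {U V : Y.V.X.Opens} (h : U ≤ V) {z : Y.Cycles}
    (hz : SupportedOff V z) : SupportedOff U z := fun x hx hU => hz x hx (h hU)

/-- The complement of the support of a cycle. -/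
lemma exists_open {Y : 𝒱.Obj} {i : ℕ} {z : Y.Cycles} (hz : Y.IsCyc i z) :
    ∃ U : Y.V.X.Opens, CodimGe U i ∧ SupportedOff U z := by
  classical
  let S : Set Y.V.X := {x | Y.V.coeff z x ≠ 0}
  have hS : S.Finite := by
    have h := (z : Y.V.X →₀ ℚ).support.finite_toSet
    refine h.subset fun x hx => ?_
    exact Finsupp.mem_support_iff.2 hx
  let Z : Set Y.V.X := ⋃ x ∈ S, closure {x}
  have hZ : IsClosed Z := hS.isClosed_biUnion fun x _ => isClosed_closure
  refine ⟨⟨Zᶜ, hZ.isOpen_compl⟩, fun x hx => ?_, fun x hx hU => ?_⟩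
  · have h1 : x ∈ Z := by
      by_contra h
      exact hx h
    obtain ⟨s, hs, hxs⟩ := Set.mem_iUnion₂.1 h1
    have h2 : x ≤ s := specializes_iff_mem_closure.2 hxs
    have h3 := hz s hs
    rw [← h3]
    exact Order.coheight_anti h2
  · exact hU (Set.mem_iUnion₂.2 ⟨x, hx, subset_closure rfl⟩)

variable {W : WeilCohomology.{u, v} ops} {q : ℕ} {F : FrobeniusOver W q}

lemma spanOff_mono {Y : 𝒱.Obj} {U V : Y.V.X.Opens} (h : U ≤ V) (i : ℕ) :
    spanOff W V i ≤ spanOff W U i := by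
  apply Submodule.span_mono
  rintro y ⟨z, hz, hs, rfl⟩
  exact ⟨z, hz, hs.mono h, rfl⟩

lemma spanOff_le {Y : 𝒱.Obj} (U : Y.V.X.Opens) (i : ℕ) :
    spanOff W U i ≤ spanCycles W Y i := by
  rw [spanOff, Submodule.span_le]
  rintro y ⟨z, hz, -, rfl⟩
  exact mem_span_cl hz

lemma exists_spanOff {Y : 𝒱.Obj} {i : ℕ} {y : W.H Y} (hy : y ∈ spanCycles W Y i) :
    ∃ U : Y.V.X.Opens, CodimGe U i ∧ y ∈ spanOff W U i := by
  unfold spanCycles at hy
  induction hy using Submodule.span_induction with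
  | mem y hy =>
    obtain ⟨r, hr, z, hz, rfl⟩ := hy
    obtain rfl : r = i := by exact_mod_cast hr
    obtain ⟨U, hU, hs⟩ := exists_open hz
    exact ⟨U, hU, Submodule.subset_span ⟨z, hz, hs, rfl⟩⟩
  | zero => exact ⟨⊤, fun x hx => absurd trivial hx, Submodule.zero_mem _⟩
  | add x y _ _ hx hy =>
    obtain ⟨U, hU, hx⟩ := hx
    obtain ⟨V, hV, hy⟩ := hy
    exact ⟨U ⊓ V, hU.inf hV, Submodule.add_mem _ (spanOff_mono inf_le_left i hx)
      (spanOff_mono inf_le_right i hy)⟩
  | smul a x _ hx =>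
    obtain ⟨U, hU, hx⟩ := hx
    exact ⟨U, hU, Submodule.smul_mem _ _ hx⟩

lemma rf (O : OpenCohomology F) {Y : 𝒱.Obj} {U : Y.V.X.Opens} {i : ℕ} {x : W.H Y}
    (hx : x ∈ W.gr Y (2 * i)) :
    O.frob Y U i (O.res Y U i x) = O.res Y U i (W.map (F.Fr Y) x) := O.res_frob Y U i x hx

lemma res_spanOff (O : OpenCohomology F) {Y : 𝒱.Obj} {U : Y.V.X.Opens} {i : ℕ} {y : W.H Y}
    (hy : y ∈ spanOff W U i) : O.res Y U i y = 0 := by
  unfold spanOff at hy
  induction hy using Submodule.span_induction with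
  | mem y hy =>
    obtain ⟨z, hz, hs, rfl⟩ := hy
    exact O.res_cl Y U i z hz hs
  | zero => exact map_zero _
  | add x y _ _ hx hy => rw [map_add, hx, hy, add_zero]
  | smul a x _ hx => rw [map_smul, hx, smul_zero]

lemma spanCycles_gen {Y : 𝒱.Obj} {i : ℕ} {y : W.H Y} (hy : y ∈ spanCycles W Y i) :
    y ∈ Module.End.maxGenEigenspace (M := W.H Y) (W.map (F.Fr Y)).toLinearMap ((q : W.K) ^ i) :=
  eig_mem_gen (isTateClass_of_span (F := F) hy).2

/-- **The Tate conjecture for the open subvarieties implies the strong Tate conjecture.** -/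
theorem strong_of_open (O : OpenCohomology F) {Y : 𝒱.Obj} {i : ℕ}
    (h : ∀ U : Y.V.X.Opens, CodimGe U i → TateOpen O Y U i) : StrongTate F Y i := by
  have key : ∀ (m : ℕ) (x : W.H Y), x ∈ W.gr Y (2 * i) →
      (((W.map (F.Fr Y)).toLinearMap - ((q : W.K) ^ i) • (1 : Module.End W.K (W.H Y))) ^ m) x = 0 →
      x ∈ spanCycles W Y i := by
    intro m
    induction m with
    | zero =>
      intro x _ hx
      rw [pow_zero, Module.End.one_apply] at hx
      rw [hx]
      exact Submodule.zero_mem _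
    | succ m ih =>
      intro x hxg hx
      rw [pow_succ, Module.End.mul_apply] at hx
      set y := ((W.map (F.Fr Y)).toLinearMap - ((q : W.K) ^ i) • (1 : Module.End W.K (W.H Y))) x
        with hy
      have hy' : y = W.map (F.Fr Y) x - ((q : W.K) ^ i) • x := rfl
      have hyg : y ∈ W.gr Y (2 * i) := by
        rw [hy']
        exact Submodule.sub_mem _ (W.map_mem _ hxg) (Submodule.smul_mem _ _ hxg)
      have hys := ih y hyg hx
      obtain ⟨U, hU, hyU⟩ := exists_spanOff hys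
      have h1 : O.frob Y U i (O.res Y U i x) = ((q : W.K) ^ i) • O.res Y U i x := by
        have h2 : W.map (F.Fr Y) x = y + ((q : W.K) ^ i) • x := by
          rw [hy', sub_add_cancel]
        rw [rf O hxg, h2, map_add, map_smul, res_spanOff O hyU, zero_add]
      obtain ⟨s, hs, hsx⟩ := h U hU _ h1
      have hsx : O.res Y U i s = O.res Y U i x := hsx
      have h3 : O.res Y U i (x - s) = 0 := by rw [map_sub, hsx, sub_self]
      have hsg : s ∈ W.gr Y (2 * i) := (isTateClass_of_span (F := F) hs).1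
      have hxE : x ∈ Module.End.maxGenEigenspace (M := W.H Y) (W.map (F.Fr Y)).toLinearMap
          ((q : W.K) ^ i) := by
        rw [Module.End.mem_maxGenEigenspace]
        refine ⟨m + 1, ?_⟩
        rw [pow_succ, Module.End.mul_apply]
        exact hx
      have h4 := O.purity Y U i hU (x - s)
        ⟨Submodule.sub_mem _ hxE (spanCycles_gen hs), Submodule.sub_mem _ hxg hsg⟩ h3
      have h5 := Submodule.add_mem _ (spanOff_le U i h4) hs
      rwa [sub_add_cancel] at h5
  rintro x ⟨hx, hxg⟩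
  obtain ⟨m, hm⟩ := (Module.End.mem_maxGenEigenspace _ _ _).1 hx
  exact key m x hxg hm

/-- An element which the operator maps into a stable subspace is the sum of a generalised
null vector and of an element of the subspace. -/
lemma fitting_aux {K V : Type*} [Field K] [AddCommGroup V] [Module K V] [FiniteDimensional K V]
    (g : V →ₗ[K] V) (N : Submodule K V) (hN : ∀ v ∈ N, g v ∈ N) {x : V} (hx : g x ∈ N) :
    ∃ x0 x1 : V, x0 + x1 = x ∧ (∃ m : ℕ, (g ^ m) x0 = 0) ∧ x1 ∈ N := by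
  have hNt : ∀ (t : ℕ) (v : V), v ∈ N → (g ^ t) v ∈ N := by
    intro t
    induction t with
    | zero => intro v hv; exact hv
    | succ t ih =>
      intro v hv
      rw [pow_succ, Module.End.mul_apply]
      exact ih _ (hN v hv)
  have hcompl := LinearMap.isCompl_iSup_ker_pow_iInf_range_pow g
  have hmem : x ∈ (⨆ m, LinearMap.ker (g ^ m)) ⊔ ⨅ m, LinearMap.range (g ^ m) := by
    rw [hcompl.sup_eq_top]
    trivial
  obtain ⟨x0, hx0, x1, hx1, hxx⟩ := Submodule.mem_sup.1 hmem
  have hdir : Directed (· ≤ ·) (fun m => LinearMap.ker (g ^ m)) := by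
    apply Monotone.directed_le
    intro m m' hmm y hy
    obtain ⟨t, rfl⟩ := Nat.exists_eq_add_of_le hmm
    rw [LinearMap.mem_ker] at hy ⊢
    rw [add_comm, pow_add, Module.End.mul_apply, hy, map_zero]
  obtain ⟨m, hm⟩ := (Submodule.mem_iSup_of_directed _ hdir).1 hx0
  rw [LinearMap.mem_ker] at hm
  refine ⟨x0, x1, hxx, ⟨m, hm⟩, ?_⟩
  have hgx1 : (g ^ (m + 1)) x1 ∈ N := by
    have hgm : (g ^ (m + 1)) x ∈ N := by
      rw [pow_succ, Module.End.mul_apply]
      exact hNt m _ hx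
    rw [← hxx, map_add] at hgm
    have h0 : (g ^ (m + 1)) x0 = 0 := by
      rw [pow_succ', Module.End.mul_apply, hm, map_zero]
    rwa [h0, zero_add] at hgm
  set R : Submodule K V := ⨅ m, LinearMap.range (g ^ m) with hR
  have hRg : ∀ v ∈ R, g v ∈ R := by
    intro v hv
    rw [hR, Submodule.mem_iInf] at hv ⊢
    intro t
    obtain ⟨w, hw⟩ := hv t
    refine ⟨g w, ?_⟩
    rw [← hw, ← Module.End.mul_apply, ← Module.End.mul_apply, ← pow_succ, ← pow_succ']
  have hRt : ∀ (t : ℕ) (v : V), v ∈ R → (g ^ t) v ∈ R := by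
    intro t
    induction t with
    | zero => intro v hv; exact hv
    | succ t ih =>
      intro v hv
      rw [pow_succ, Module.End.mul_apply]
      exact ih _ (hRg v hv)
  have hinj : ∀ (t : ℕ) (v : V), v ∈ R → (g ^ t) v = 0 → v = 0 := by
    intro t v hv h0
    have h1 : v ∈ ⨆ m, LinearMap.ker (g ^ m) := Submodule.mem_iSup_of_mem t h0
    exact (Submodule.disjoint_def.1 hcompl.disjoint) v h1 hv
  let G : (N ⊓ R : Submodule K V) →ₗ[K] (N ⊓ R : Submodule K V) :=
    (g ^ (m + 1)).restrict fun v hv => ⟨hNt _ v hv.1, hRt _ v hv.2⟩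
  have hGinj : Function.Injective G := by
    intro v w hv
    have h1 : (g ^ (m + 1)) (v : V) = (g ^ (m + 1)) (w : V) := congrArg Subtype.val hv
    have h2 : (v : V) - (w : V) = 0 := by
      refine hinj (m + 1) _ (Submodule.sub_mem _ v.2.2 w.2.2) ?_
      rw [map_sub, h1, sub_self]
    exact Subtype.ext (sub_eq_zero.1 h2)
  obtain ⟨w, hw⟩ := LinearMap.surjective_of_injective hGinj
    ⟨(g ^ (m + 1)) x1, hgx1, hRt _ x1 hx1⟩
  have h1 : (g ^ (m + 1)) (w : V) = (g ^ (m + 1)) x1 := congrArg Subtype.val hw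
  have h2 : (w : V) - x1 = 0 := by
    refine hinj (m + 1) _ (Submodule.sub_mem _ w.2.2 hx1) ?_
    rw [map_sub, h1, sub_self]
  rw [← sub_eq_zero.1 h2]
  exact w.2.1

/-- **The strong Tate conjecture implies the Tate conjecture for the open subvarieties.** -/
theorem open_of_strong (O : OpenCohomology F) {Y : 𝒱.Obj} {i : ℕ} (h : StrongTate F Y i)
    (U : Y.V.X.Opens) : TateOpen O Y U i := by
  intro c hc
  obtain ⟨x, hx, rfl⟩ := O.weights Y U i c hc
  have hc : O.frob Y U i (O.res Y U i x) = ((q : W.K) ^ i) • O.res Y U i x := hc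
  let g : W.H Y →ₗ[W.K] W.H Y :=
    (W.map (F.Fr Y)).toLinearMap - ((q : W.K) ^ i) • (1 : Module.End W.K (W.H Y))
  have hg : ∀ v, g v = W.map (F.Fr Y) v - ((q : W.K) ^ i) • v := fun v => rfl
  let N : Submodule W.K (W.H Y) := LinearMap.ker (O.res Y U i) ⊓ W.gr Y (2 * i)
  have hN : ∀ v ∈ N, g v ∈ N := by
    rintro v ⟨hv, hv'⟩
    refine ⟨?_, Submodule.sub_mem _ (W.map_mem _ hv') (Submodule.smul_mem _ _ hv')⟩
    have hv0 : O.res Y U i v = 0 := hv
    change O.res Y U i (g v) = 0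
    rw [hg, map_sub, map_smul, ← rf O hv', hv0, map_zero, smul_zero, sub_zero]
  have hgx : g x ∈ N := by
    refine ⟨?_, Submodule.sub_mem _ (W.map_mem _ hx) (Submodule.smul_mem _ _ hx)⟩
    change O.res Y U i (g x) = 0
    rw [hg, map_sub, map_smul, ← rf O hx, hc, sub_self]
  obtain ⟨x0, x1, hxx, ⟨m, hm⟩, hx1, hx1g⟩ := fitting_aux g N hN hgx
  have hx0g : x0 ∈ W.gr Y (2 * i) := by
    have h1 : x0 = x - x1 := by rw [← hxx, add_sub_cancel_right]
    rw [h1]
    exact Submodule.sub_mem _ hx hx1g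
  have hx0s : x0 ∈ spanCycles W Y i :=
    h ⟨(Module.End.mem_maxGenEigenspace _ _ _).2 ⟨m, hm⟩, hx0g⟩
  refine ⟨x0, hx0s, ?_⟩
  have hx1' : O.res Y U i x1 = 0 := hx1
  change O.res Y U i x0 = O.res Y U i x
  rw [← hxx, map_add, hx1', add_zero]

section Prime

variable {p : ℕ} [Fact p.Prime] {a : ℕ} {F : FrobeniusOver W (p ^ a)} {X : 𝒱.Obj} {b d : ℕ}

/-- **The Tate conjecture for the open subvarieties of the powers of a variety.** -/
theorem open_powers [IsAlgClosed W.K] (ha : 0 < a) (O : OpenCohomology F)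
    (hb : Module.finrank W.K (W.H X) ≤ b) (hd : X.dim ≤ d) (hP : HasFrobPolys F X) :
    List.TFAE [LargeOpens O (pw X (exactBound b d - 1)),
      StrongTateAll F (pw X (exactBound b d - 1)),
      ∀ n, StrongTateAll F (pw X n), ∀ n, AllOpens O (pw X n)] := by
  tfae_have 1 → 2 := fun h j => strong_of_open O fun U hU => h j U hU
  tfae_have 2 → 3 := fun h n j => strong_of_one1 ha hb hd hP h n j
  tfae_have 3 → 4 := fun h n i U => open_of_strong O (h n i) U
  tfae_have 4 → 1 := fun h i U _ => h _ i U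
  tfae_finish

end Prime

end Pool.Agent.Q56.FE
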